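import Mathlib

/-!
# No degree bound forces condition ND(2) in codimension three

For every `m ≥ 5` let `X ⊆ ℙ⁴` be the image of the plane curve `y ^ m = x ^ (m - 1) z` under the
projected Veronese map `(x² : x y : y² - x z : y z : z²)`. This is an irreducible curve of degree
`2 m` which lies on no quadric, but every hyperplane section of it lies on a quadric surface of
the hyperplane. So `X` does not satisfy condition `ND(2)`.
-/

set_option autoImplicit false

open MvPolynomial

namespace Pool.Agent.Results.MP_63e4a9_ag.NoDegreeBound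

/-- The Hilbert function of `k[x_0, …, x_N] / I`: the dimension of the image of the forms of
degree `d`. -/
noncomputable def hilbertFunction {k : Type*} [Field k] {N : ℕ}
    (I : Ideal (MvPolynomial (Fin (N + 1)) k)) (d : ℕ) : ℕ :=
  Module.finrank k
    ((homogeneousSubmodule (Fin (N + 1)) k d).map (Ideal.Quotient.mkₐ k I).toLinearMap)

/-- `I` is the homogeneous (saturated) ideal of a variety (integral closed subscheme) in `ℙ^N`
of dimension `n` and degree `δ`: it is a homogeneous prime ideal (the homogeneous components of its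
elements belong to it), and the Hilbert polynomial of `k[x_0, …, x_N] / I` has degree `n` and
leading coefficient `δ / n!`. -/
structure IsVariety {k : Type*} [Field k] {N : ℕ}
    (I : Ideal (MvPolynomial (Fin (N + 1)) k)) (n δ : ℕ) : Prop where
  prime : I.IsPrime
  homogeneous : ∀ F ∈ I, ∀ d : ℕ, homogeneousComponent d F ∈ I
  hilbert : ∃ P : Polynomial ℚ, P.natDegree = n ∧ P.leadingCoeff = (δ : ℚ) / n.factorial ∧
    ∀ᶠ d : ℕ in Filter.atTop, (hilbertFunction I d : ℚ) = P.eval (d : ℚ)

/-- The linear form with coefficients `v`. -/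
noncomputable def linForm {k : Type*} [Field k] {N : ℕ} (v : Fin (N + 1) → k) :
    MvPolynomial (Fin (N + 1)) k :=
  ∑ i, C (v i) * X i

/-- The ideal of the linear subspace defined by the linear forms with coefficients `a j`. -/
noncomputable def linIdeal {k : Type*} [Field k] {N c : ℕ} (a : Fin c → Fin (N + 1) → k) :
    Ideal (MvPolynomial (Fin (N + 1)) k) :=
  Ideal.span (Set.range fun j => linForm (a j))

/-- `F` lies in the saturation of `J` with respect to the irrelevant ideal, i.e. `F` vanishes on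
the closed subscheme of `ℙ^N` defined by `J`: for some `r` all products of `F` with forms of
degree `r` lie in `J`. -/
def InSaturation {k : Type*} [Field k] {N : ℕ} (J : Ideal (MvPolynomial (Fin (N + 1)) k))
    (F : MvPolynomial (Fin (N + 1)) k) : Prop :=
  ∃ r : ℕ, ∀ G : MvPolynomial (Fin (N + 1)) k, G.IsHomogeneous r → G * F ∈ J

/-- Condition `ND(l)` for the subvariety of `ℙ^(n + e)` of dimension `n` with ideal `I`: for a
general linear subspace `Λ` of dimension `e`, given by `n` linearly independent linear forms whose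
coefficients `a` are not a zero of some nonzero polynomial `h`, every form of degree `l` which
vanishes on the scheme `X ∩ Λ` vanishes on `Λ`. -/
def ND {k : Type*} [Field k] (n e : ℕ) (I : Ideal (MvPolynomial (Fin (n + e + 1)) k))
    (l : ℕ) : Prop :=
  ∃ h : MvPolynomial (Fin n × Fin (n + e + 1)) k, h ≠ 0 ∧
    ∀ a : Fin n → Fin (n + e + 1) → k, LinearIndependent k a →
      eval (fun p => a p.1 p.2) h ≠ 0 →
      ∀ F : MvPolynomial (Fin (n + e + 1)) k, F.IsHomogeneous l →
        InSaturation (I ⊔ linIdeal a) F → F ∈ linIdeal a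

/-- The statement of the question: for all `e ≥ 3` and `l ≥ 1` there is a number `f` such that
every variety of codimension `e` and degree greater than `f` which lies on no hypersurface of
degree `l` satisfies `ND(l)`. -/
def Question (k : Type*) [Field k] : Prop :=
  ∀ e l : ℕ, 3 ≤ e → 1 ≤ l → ∃ f : ℕ, ∀ (n : ℕ), 1 ≤ n →
    ∀ (I : Ideal (MvPolynomial (Fin (n + e + 1)) k)) (δ : ℕ), IsVariety I n δ →
      (∀ F ∈ I, F.IsHomogeneous l → F = 0) → f < δ → ND n e I l

section aux

variable {k : Type*} [Field k]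

/-- The projected Veronese map. -/
noncomputable def theta (k : Type*) [Field k] :
    MvPolynomial (Fin 5) k →ₐ[k] MvPolynomial (Fin 3) k :=
  aeval ![X 0 ^ 2, X 0 * X 1, X 1 ^ 2 - X 0 * X 2, X 1 * X 2, X 2 ^ 2]

/-- The parametrisation of the plane curve. -/
noncomputable def psi (k : Type*) [Field k] (m : ℕ) :
    MvPolynomial (Fin 3) k →ₐ[k] MvPolynomial (Fin 2) k :=
  aeval ![X 0 ^ m, X 0 ^ (m - 1) * X 1, X 1 ^ m]

/-- The ideal of the curve. -/
noncomputable def curveIdeal (k : Type*) [Field k] (m : ℕ) : Ideal (MvPolynomial (Fin 5) k) :=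
  RingHom.ker ((psi k m).comp (theta k))

@[simp] theorem theta_X0 : theta k (X 0) = X 0 ^ 2 := by simp [theta]
@[simp] theorem theta_X1 : theta k (X 1) = X 0 * X 1 := by simp [theta]
@[simp] theorem theta_X2 : theta k (X 2) = X 1 ^ 2 - X 0 * X 2 := by simp [theta]
@[simp] theorem theta_X3 : theta k (X 3) = X 1 * X 2 := by simp [theta]
@[simp] theorem theta_X4 : theta k (X 4) = X 2 ^ 2 := by simp [theta]

theorem theta_hom {F : MvPolynomial (Fin 5) k} {d : ℕ} (hF : F.IsHomogeneous d) :
    (theta k F).IsHomogeneous (2 * d) := by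
  apply hF.aeval
  intro i
  fin_cases i
  · exact isHomogeneous_X_pow 0 2
  · exact (isHomogeneous_X k 0).mul (isHomogeneous_X k 1)
  · exact (isHomogeneous_X_pow 1 2).sub ((isHomogeneous_X k 0).mul (isHomogeneous_X k 2))
  · exact (isHomogeneous_X k 1).mul (isHomogeneous_X k 2)
  · exact isHomogeneous_X_pow 2 2

theorem psi_hom {m : ℕ} (hm : 1 ≤ m) {F : MvPolynomial (Fin 3) k} {d : ℕ}
    (hF : F.IsHomogeneous d) : (psi k m F).IsHomogeneous (m * d) := by
  apply hF.aeval
  intro i
  fin_cases i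
  · exact isHomogeneous_X_pow 0 m
  · have := (isHomogeneous_X_pow (R := k) (0 : Fin 2) (m - 1)).mul (isHomogeneous_X k 1)
    rwa [Nat.sub_add_cancel hm] at this
  · exact isHomogeneous_X_pow 1 m

theorem comp_hom {m : ℕ} (hm : 1 ≤ m) {F : MvPolynomial (Fin 5) k} {d : ℕ}
    (hF : F.IsHomogeneous d) :
    (((psi k m).comp (theta k)) F).IsHomogeneous (m * (2 * d)) :=
  psi_hom hm (theta_hom hF)

theorem curveIdeal_homogeneous {m : ℕ} (hm : 1 ≤ m) :
    ∀ F ∈ curveIdeal k m, ∀ d : ℕ, homogeneousComponent d F ∈ curveIdeal k m := by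
  intro F hF d
  unfold curveIdeal at hF ⊢
  rw [RingHom.mem_ker] at hF ⊢
  have h2 : ((psi k m).comp (theta k)) (homogeneousComponent d F) =
      homogeneousComponent (m * (2 * d)) (((psi k m).comp (theta k)) F) := by
    conv_rhs => rw [← sum_homogeneousComponent F]
    rw [map_sum, map_sum]
    have h3 : ∀ e ∈ Finset.range (F.totalDegree + 1),
        homogeneousComponent (m * (2 * d))
          (((psi k m).comp (theta k)) (homogeneousComponent e F)) =
        if e = d then ((psi k m).comp (theta k)) (homogeneousComponent e F) else 0 := by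
      intro e _
      rw [homogeneousComponent_of_mem
        (comp_hom hm (homogeneousComponent_isHomogeneous e F))]
      by_cases h : e = d
      · subst h
        simp
      · have : m * (2 * e) ≠ m * (2 * d) := by
          intro h'
          apply h
          have := Nat.eq_of_mul_eq_mul_left (by omega) h'
          omega
        simp [h, this.symm]
    rw [Finset.sum_congr rfl h3, Finset.sum_ite_eq' ]
    split_ifs with h4
    · rfl
    · rw [Finset.mem_range, not_lt] at h4
      rw [homogeneousComponent_eq_zero _ _ (by omega), map_zero]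
  have h5 : ((psi k m).comp (theta k)) F = 0 := hF
  have h6 := h2
  rw [h5, map_zero] at h6
  exact h6

/-- Elements of the image of the forms of degree `d`. -/
def Im (k : Type*) [Field k] (d : ℕ) (f : MvPolynomial (Fin 3) k) : Prop :=
  ∃ F : MvPolynomial (Fin 5) k, F.IsHomogeneous d ∧ theta k F = f

theorem Im.mul_X {d : ℕ} {f : MvPolynomial (Fin 3) k} (h : Im k d f) (i : Fin 5) :
    Im k (d + 1) (theta k (X i) * f) := by
  obtain ⟨F, hF, rfl⟩ := h
  refine ⟨X i * F, ?_, by rw [map_mul]⟩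
  rw [add_comm]
  exact (isHomogeneous_X k i).mul hF

theorem Im.add {d : ℕ} {f g : MvPolynomial (Fin 3) k} (hf : Im k d f) (hg : Im k d g) :
    Im k d (f + g) := by
  obtain ⟨F, hF, rfl⟩ := hf
  obtain ⟨G, hG, rfl⟩ := hg
  exact ⟨F + G, hF.add hG, by rw [map_add]⟩

theorem quad_hom (i j : Fin 5) : (X i * X j : MvPolynomial (Fin 5) k).IsHomogeneous 2 :=
  (isHomogeneous_X k i).mul (isHomogeneous_X k j)

theorem base_case (a b c : ℕ) (h : a + b + c = 4) :
    Im k 2 (X 0 ^ a * X 1 ^ b * X 2 ^ c : MvPolynomial (Fin 3) k) := by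
  have ha : a ≤ 4 := by omega
  have hb : b ≤ 4 := by omega
  have hc : c = 4 - a - b := by omega
  subst hc
  interval_cases a <;> interval_cases b <;> first
    | (exfalso; omega)
    | skip
  · -- z^4
    exact ⟨X 4 * X 4, quad_hom _ _, by simp; ring⟩
  · -- y z^3
    exact ⟨X 3 * X 4, quad_hom _ _, by simp; ring⟩
  · -- y^2 z^2
    exact ⟨X 3 * X 3, quad_hom _ _, by simp; ring⟩
  · -- y^3 z
    exact ⟨X 2 * X 3 + X 1 * X 4, (quad_hom _ _).add (quad_hom _ _), by simp; ring⟩
  · -- y^4
    exact ⟨X 2 * X 2 + X 1 * X 3 + X 1 * X 3 - X 0 * X 4,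
      (((quad_hom _ _).add (quad_hom _ _)).add (quad_hom _ _)).sub (quad_hom _ _), by simp; ring⟩
  · -- x z^3
    exact ⟨X 3 * X 3 - X 2 * X 4, (quad_hom _ _).sub (quad_hom _ _), by simp; ring⟩
  · -- x y z^2
    exact ⟨X 1 * X 4, quad_hom _ _, by simp⟩
  · -- x y^2 z
    exact ⟨X 1 * X 3, quad_hom _ _, by simp; ring⟩
  · -- x y^3
    exact ⟨X 1 * X 2 + X 0 * X 3, (quad_hom _ _).add (quad_hom _ _), by simp; ring⟩
  · -- x^2 z^2
    exact ⟨X 0 * X 4, quad_hom _ _, by simp⟩
  · -- x^2 y z
    exact ⟨X 0 * X 3, quad_hom _ _, by simp; ring⟩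
  · -- x^2 y^2
    exact ⟨X 1 * X 1, quad_hom _ _, by simp; ring⟩
  · -- x^3 z
    exact ⟨X 1 * X 1 - X 0 * X 2, (quad_hom _ _).sub (quad_hom _ _), by simp; ring⟩
  · -- x^3 y
    exact ⟨X 0 * X 1, quad_hom _ _, by simp; ring⟩
  · -- x^4
    exact ⟨X 0 * X 0, quad_hom _ _, by simp; ring⟩

theorem im_monomial (d : ℕ) (hd : 2 ≤ d) : ∀ a b c : ℕ, a + b + c = 2 * d →
    Im k d (X 0 ^ a * X 1 ^ b * X 2 ^ c : MvPolynomial (Fin 3) k) := by
  induction d, hd using Nat.le_induction with
  | base =>
    intro a b c h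
    exact base_case a b c h
  | succ d hd ih =>
    intro a b c h
    by_cases ha : 2 ≤ a
    · obtain ⟨a, rfl⟩ := Nat.exists_eq_add_of_le ha
      have := (ih a b c (by omega)).mul_X 0
      rw [theta_X0] at this
      convert this using 1
      ring
    by_cases hab : 1 ≤ a ∧ 1 ≤ b
    · obtain ⟨a, rfl⟩ := Nat.exists_eq_add_of_le hab.1
      obtain ⟨b, rfl⟩ := Nat.exists_eq_add_of_le hab.2
      have := (ih a b c (by omega)).mul_X 1
      rw [theta_X1] at this
      convert this using 1
      ring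
    by_cases hbc : 1 ≤ b ∧ 1 ≤ c
    · obtain ⟨b, rfl⟩ := Nat.exists_eq_add_of_le hbc.1
      obtain ⟨c, rfl⟩ := Nat.exists_eq_add_of_le hbc.2
      have := (ih a b c (by omega)).mul_X 3
      rw [theta_X3] at this
      convert this using 1
      ring
    by_cases hc : 2 ≤ c
    · obtain ⟨c, rfl⟩ := Nat.exists_eq_add_of_le hc
      have := (ih a b c (by omega)).mul_X 4
      rw [theta_X4] at this
      convert this using 1
      ring
    have hb : b = 2 * (d + 1) ∧ a = 0 ∧ c = 0 := by
      by_cases hb0 : b = 0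
      · omega
      · omega
    obtain ⟨rfl, rfl, rfl⟩ := hb
    obtain ⟨e, rfl⟩ := Nat.exists_eq_add_of_le hd
    have h1 := (ih 0 (2 * (2 + e)) 0 (by omega)).mul_X 2
    have h2 := (ih 0 (2 * (2 + e) - 1) 1 (by omega)).mul_X 1
    have h3 := h1.add h2
    rw [theta_X2, theta_X1] at h3
    convert h3 using 1
    have e1 : 2 * (2 + e) - 1 = 3 + 2 * e := by omega
    rw [e1]
    ring

theorem hilb_eq (m d : ℕ) : hilbertFunction (N := 4) (curveIdeal k m) d =
    Module.finrank k ((homogeneousSubmodule (Fin 5) k d).map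
      ((psi k m).comp (theta k)).toLinearMap) := by
  unfold hilbertFunction
  let f := (psi k m).comp (theta k)
  let g : (MvPolynomial (Fin 5) k ⧸ curveIdeal k m) →ₐ[k] MvPolynomial (Fin 2) k :=
    Ideal.kerLiftAlg f
  have hg : Function.Injective g := Ideal.kerLiftAlg_injective f
  have h1 : f.toLinearMap =
      g.toLinearMap ∘ₗ (Ideal.Quotient.mkₐ k (curveIdeal k m)).toLinearMap := by
    ext x
    rfl
  change _ = Module.finrank k ((homogeneousSubmodule (Fin 5) k d).map f.toLinearMap)
  rw [h1, Submodule.map_comp]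
  exact (Submodule.equivMapOfInjective g.toLinearMap hg _).finrank_eq

theorem monomial_three (e : Fin 3 →₀ ℕ) (c : k) :
    monomial e c = c • (X 0 ^ e 0 * X 1 ^ e 1 * X 2 ^ e 2 : MvPolynomial (Fin 3) k) := by
  rw [monomial_eq, Finsupp.prod_fintype _ _ (fun i => pow_zero _), Fin.prod_univ_three,
    smul_eq_C_mul]

theorem degree_three (e : Fin 3 →₀ ℕ) : e.degree = e 0 + e 1 + e 2 := by
  rw [Finsupp.degree_eq_sum, Fin.sum_univ_three]

theorem homogeneous_three_induction {r : ℕ} (S : Submodule k (MvPolynomial (Fin 3) k))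
    (h : ∀ a b c : ℕ, a + b + c = r → X 0 ^ a * X 1 ^ b * X 2 ^ c ∈ S)
    {f : MvPolynomial (Fin 3) k} (hf : f.IsHomogeneous r) : f ∈ S := by
  rw [f.as_sum]
  refine Submodule.sum_mem _ fun e he => ?_
  rw [monomial_three]
  refine S.smul_mem _ (h _ _ _ ?_)
  rw [← degree_three]
  by_contra hne
  exact (mem_support_iff.1 he) (hf.coeff_eq_zero hne)

theorem map_theta {d : ℕ} (hd : 2 ≤ d) :
    (homogeneousSubmodule (Fin 5) k d).map (theta k).toLinearMap =
      homogeneousSubmodule (Fin 3) k (2 * d) := by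
  apply le_antisymm
  · rintro _ ⟨F, hF, rfl⟩
    exact theta_hom hF
  · intro f hf
    refine homogeneous_three_induction _ (fun a b c habc => ?_) hf
    obtain ⟨F, hF, h⟩ := im_monomial (k := k) d hd a b c habc
    exact ⟨F, hF, h⟩

/-- The monomials in the homogeneous coordinate ring of the curve. -/
noncomputable def vec (k : Type*) [Field k] (m r : ℕ) (p : Σ b : Fin m, Fin (r + 1 - b)) :
    MvPolynomial (Fin 2) k :=
  monomial (Finsupp.single 0 (m * r - (p.1 + m * p.2)) + Finsupp.single 1 (p.1 + m * p.2)) 1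

theorem vec_independent (m r : ℕ) : LinearIndependent k (vec k m r) := by
  have h := (basisMonomials (Fin 2) k).linearIndependent
  have hinj : Function.Injective (fun p : (Σ b : Fin m, Fin (r + 1 - b)) =>
      (Finsupp.single 0 (m * r - ((p.1 : ℕ) + m * p.2)) +
        Finsupp.single 1 ((p.1 : ℕ) + m * p.2) : Fin 2 →₀ ℕ)) := by
    rintro ⟨b, c⟩ ⟨b', c'⟩ he
    have h1 := DFunLike.congr_fun he 1
    simp at h1
    have hb : (b : ℕ) = b' := by
      have h2 := congrArg (· % m) h1
      simp only [Nat.add_mul_mod_self_left] at h2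
      rwa [Nat.mod_eq_of_lt b.2, Nat.mod_eq_of_lt b'.2] at h2
    have hb' : b = b' := Fin.ext hb
    subst hb'
    have hc : (c : ℕ) = c' := by
      have hm : 0 < m := lt_of_le_of_lt (Nat.zero_le _) b.2
      exact Nat.eq_of_mul_eq_mul_left hm (by omega)
    have hc' : c = c' := Fin.ext hc
    subst hc'
    rfl
  have h2 := h.comp _ hinj
  have h3 : vec k m r = (basisMonomials (Fin 2) k) ∘ (fun p : (Σ b : Fin m, Fin (r + 1 - b)) =>
      (Finsupp.single 0 (m * r - ((p.1 : ℕ) + m * p.2)) +
        Finsupp.single 1 ((p.1 : ℕ) + m * p.2) : Fin 2 →₀ ℕ)) := by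
    funext p
    simp [vec]
  rw [h3]
  exact h2

theorem psi_monomial (m a b c : ℕ) :
    psi k m (X 0 ^ a * X 1 ^ b * X 2 ^ c) =
      monomial (Finsupp.single 0 (m * a + (m - 1) * b) + Finsupp.single 1 (b + m * c)) 1 := by
  have h1 : psi k m (X 0 ^ a * X 1 ^ b * X 2 ^ c) =
      X 0 ^ (m * a + (m - 1) * b) * X 1 ^ (b + m * c) := by
    simp [psi]
    ring
  rw [h1, X_pow_eq_monomial, X_pow_eq_monomial, monomial_mul, one_mul]

theorem map_psi {m : ℕ} (hm : 1 ≤ m) (r : ℕ) :
    (homogeneousSubmodule (Fin 3) k r).map (psi k m).toLinearMap =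
      Submodule.span k (Set.range (vec k m r)) := by
  obtain ⟨m, rfl⟩ := Nat.exists_eq_add_of_le' hm
  apply le_antisymm
  · rw [Submodule.map_le_iff_le_comap]
    intro f hf
    refine homogeneous_three_induction _ (fun a b c habc => ?_) hf
    rw [Submodule.mem_comap]
    apply Submodule.subset_span
    have hb : b % (m + 1) < m + 1 := Nat.mod_lt _ (Nat.succ_pos m)
    have hdiv := Nat.div_add_mod b (m + 1)
    have hle : c + b / (m + 1) + b % (m + 1) ≤ r := by
      have : b / (m + 1) ≤ (m + 1) * (b / (m + 1)) := Nat.le_mul_of_pos_left _ (Nat.succ_pos m)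
      omega
    refine ⟨⟨⟨b % (m + 1), hb⟩, ⟨c + b / (m + 1), ?_⟩⟩, ?_⟩
    · simp only
      omega
    · unfold vec
      have h1 := psi_monomial (k := k) (m + 1) a b c
      change _ = psi k (m + 1) (X 0 ^ a * X 1 ^ b * X 2 ^ c)
      rw [h1]
      simp only
      have e1 : b % (m + 1) + (m + 1) * (c + b / (m + 1)) = b + (m + 1) * c := by
        rw [mul_add]
        omega
      have e2 : (m + 1) * r - (b % (m + 1) + (m + 1) * (c + b / (m + 1))) =
          (m + 1) * a + (m + 1 - 1) * b := by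
        rw [e1, ← habc, Nat.add_sub_cancel]
        have : (m + 1) * (a + b + c) = ((m + 1) * a + m * b) + (b + (m + 1) * c) := by ring
        rw [this, Nat.add_sub_cancel]
      rw [e2, e1]
  · rw [Submodule.span_le]
    rintro _ ⟨⟨b, c⟩, rfl⟩
    have hc := c.2
    have hbc : (b : ℕ) + c ≤ r := by omega
    refine ⟨X 0 ^ (r - b - c) * X 1 ^ (b : ℕ) * X 2 ^ (c : ℕ), ?_, ?_⟩
    · have := ((isHomogeneous_X_pow (R := k) (0 : Fin 3) (r - b - c)).mul
        (isHomogeneous_X_pow (1 : Fin 3) (b : ℕ))).mul (isHomogeneous_X_pow (2 : Fin 3) (c : ℕ))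
      have e : r - b - c + b + c = r := by omega
      rwa [e] at this
    · change psi k (m + 1) _ = _
      rw [psi_monomial]
      unfold vec
      simp only
      have e2 : (m + 1) * r - ((b : ℕ) + (m + 1) * c) = (m + 1) * (r - b - c) + (m + 1 - 1) * b := by
        clear hc
        generalize (c : ℕ) = c at hbc ⊢
        obtain ⟨s, hs⟩ := Nat.exists_eq_add_of_le hbc
        have e3 : r - b - c = s := by omega
        rw [e3, hs, Nat.add_sub_cancel]
        have : (m + 1) * (b + c + s) = ((m + 1) * s + m * b) + (b + (m + 1) * c) := by ring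
        rw [this, Nat.add_sub_cancel]
      rw [e2]

theorem hilb_formula {m d : ℕ} (hm : 1 ≤ m) (hd : 2 ≤ d) :
    hilbertFunction (N := 4) (curveIdeal k m) d = ∑ b : Fin m, (2 * d + 1 - b) := by
  rw [hilb_eq]
  have h1 : ((psi k m).comp (theta k)).toLinearMap =
      (psi k m).toLinearMap ∘ₗ (theta k).toLinearMap := rfl
  rw [h1, Submodule.map_comp, map_theta hd, map_psi hm, finrank_span_eq_card (vec_independent m _)]
  simp

theorem sum_formula (m r : ℕ) (h : m ≤ r + 1) :
    ((∑ b : Fin m, (r + 1 - b) : ℕ) : ℚ) = m * (r + 1) - m * (m - 1) / 2 := by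
  rw [Fin.sum_univ_eq_sum_range (fun b => r + 1 - b) m]
  induction m with
  | zero => simp
  | succ m ih =>
    rw [Finset.sum_range_succ, Nat.cast_add, ih (by omega), Nat.cast_sub (by omega)]
    push_cast
    ring

theorem curve_isVariety {m : ℕ} (hm : 1 ≤ m) : IsVariety (N := 4) (curveIdeal k m) 1 (2 * m) := by
  refine ⟨RingHom.ker_isPrime _, curveIdeal_homogeneous hm, ?_⟩
  have hm0 : (2 * m : ℚ) ≠ 0 := by
    have : (m : ℚ) ≠ 0 := by
      have : m ≠ 0 := by omega
      exact_mod_cast this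
    positivity
  refine ⟨Polynomial.C (2 * m : ℚ) * Polynomial.X + Polynomial.C (m - m * (m - 1) / 2 : ℚ),
    ?_, ?_, ?_⟩
  · exact Polynomial.natDegree_linear hm0
  · rw [Polynomial.leadingCoeff_linear hm0]
    simp
  · rw [Filter.eventually_atTop]
    refine ⟨m + 2, fun d hd => ?_⟩
    rw [hilb_formula hm (by omega), sum_formula m (2 * d) (by omega)]
    simp
    ring

theorem finrank_quadrics_le :
    Module.finrank k (homogeneousSubmodule (Fin 5) k 2) ≤ 15 := by
  classical
  let T : Finset (MvPolynomial (Fin 5) k) :=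
    ((Finset.univ : Finset (Fin 5 × Fin 5)).filter fun p => p.1 ≤ p.2).image
      fun p => X p.1 * X p.2
  have hT : T.card ≤ 15 := by
    refine Finset.card_image_le.trans ?_
    decide
  have h1 : homogeneousSubmodule (Fin 5) k 2 = Submodule.span k (T : Set (MvPolynomial (Fin 5) k)) := by
    rw [← homogeneousSubmodule_one_pow, homogeneousSubmodule_one_eq_span_X, pow_two,
      Submodule.span_mul_span]
    congr 1
    ext f
    simp only [T, Finset.coe_image, Set.mem_image, Finset.coe_filter, Finset.mem_univ, true_and,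
      Set.mem_ofPred_eq, Set.mem_mul, Set.mem_range]
    constructor
    · rintro ⟨_, ⟨i, rfl⟩, _, ⟨j, rfl⟩, rfl⟩
      rcases le_total i j with h | h
      · exact ⟨(i, j), h, rfl⟩
      · exact ⟨(j, i), h, mul_comm _ _⟩
    · rintro ⟨⟨i, j⟩, _, rfl⟩
      exact ⟨_, ⟨i, rfl⟩, _, ⟨j, rfl⟩, rfl⟩
  rw [h1]
  exact (finrank_span_finset_le_card T).trans hT

theorem no_quadric {m : ℕ} (hm : 5 ≤ m) (F : MvPolynomial (Fin 5) k) (hF : F ∈ curveIdeal k m)
    (h2 : F.IsHomogeneous 2) : F = 0 := by
  have h1 := hilb_formula (k := k) (m := m) (d := 2) (by omega) le_rfl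
  rw [hilb_eq] at h1
  have h3 : (15 : ℕ) ≤ ∑ b : Fin m, (2 * 2 + 1 - (b : ℕ)) := by
    rw [Fin.sum_univ_eq_sum_range (fun b => 2 * 2 + 1 - b) m]
    calc 15 = ∑ b ∈ Finset.range 5, (2 * 2 + 1 - b) := by decide
      _ ≤ _ := Finset.sum_le_sum_of_subset (Finset.range_subset_range.2 hm)
  let V := homogeneousSubmodule (Fin 5) k 2
  let f : V →ₗ[k] MvPolynomial (Fin 2) k :=
    ((psi k m).comp (theta k)).toLinearMap.comp V.subtype
  have hfin : FiniteDimensional k V := by
    have := homogeneousSubmodule_fg (σ := Fin 5) (R := k) 2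
    exact Module.Finite.iff_fg.2 this
  have hrange : LinearMap.range f = V.map ((psi k m).comp (theta k)).toLinearMap := by
    rw [LinearMap.range_comp, Submodule.range_subtype]
  have h4 := LinearMap.finrank_range_add_finrank_ker f
  rw [hrange, h1] at h4
  have h5 : Module.finrank k V ≤ 15 := finrank_quadrics_le
  have h6 : Module.finrank k (LinearMap.ker f) = 0 := by omega
  have h7 : LinearMap.ker f = ⊥ := Submodule.finrank_eq_zero.1 h6
  have h8 : (⟨F, h2⟩ : V) ∈ LinearMap.ker f := by
    rw [LinearMap.mem_ker]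
    exact hF
  rw [h7, Submodule.mem_bot] at h8
  exact congrArg Subtype.val h8

/-- The quadric through the hyperplane section. -/
noncomputable def quad (a : Fin 5 → k) : MvPolynomial (Fin 5) k :=
  C (a 0) * (X 1 * X 1) + C (a 1) * (X 1 * X 2 + X 0 * X 3) +
    C (a 2) * (X 2 * X 2 + X 1 * X 3 - X 0 * X 4) + C (a 3) * (X 2 * X 3 + X 1 * X 4) +
    C (a 4) * (X 3 * X 3)

theorem quad_isHomogeneous (a : Fin 5 → k) : (quad a).IsHomogeneous 2 := by
  unfold quad
  exact (((((quad_hom _ _).C_mul _).add (((quad_hom _ _).add (quad_hom _ _)).C_mul _)).add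
    ((((quad_hom _ _).add (quad_hom _ _)).sub (quad_hom _ _)).C_mul _)).add
    (((quad_hom _ _).add (quad_hom _ _)).C_mul _)).add ((quad_hom _ _).C_mul _)

theorem theta_C (c : k) : theta k (C c) = C c := by
  simp [theta]

theorem theta_linForm (a : Fin 5 → k) : theta k (linForm (N := 4) a) =
    C (a 0) * X 0 ^ 2 + C (a 1) * (X 0 * X 1) + C (a 2) * (X 1 ^ 2 - X 0 * X 2) +
      C (a 3) * (X 1 * X 2) + C (a 4) * X 2 ^ 2 := by
  have h : linForm (N := 4) a = (∑ i : Fin 5, C (a i) * X i : MvPolynomial (Fin 5) k) := rfl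
  rw [h, map_sum, Fin.sum_univ_five]
  simp only [map_mul, theta_C, theta_X0, theta_X1, theta_X2, theta_X3, theta_X4]

theorem X_mul_quad (m : ℕ) (a : Fin 5 → k) (i : Fin 5) :
    X i * quad a ∈ curveIdeal k m ⊔ Ideal.span {linForm (N := 4) a} := by
  obtain ⟨H, hH⟩ : ∃ H : MvPolynomial (Fin 5) k, theta k H = theta k (X i) * X 1 ^ 2 := by
    fin_cases i
    · exact ⟨X 1 * X 1, by simp; ring⟩
    · exact ⟨X 1 * X 2 + X 0 * X 3, by simp; ring⟩
    · exact ⟨X 2 * X 2 + X 1 * X 3 - X 0 * X 4, by simp; ring⟩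
    · exact ⟨X 2 * X 3 + X 1 * X 4, by simp; ring⟩
    · exact ⟨X 3 * X 3, by simp; ring⟩
  have h1 : X i * quad a - H * linForm (N := 4) a ∈ curveIdeal k m := by
    unfold curveIdeal
    rw [RingHom.mem_ker]
    have h2 : theta k (X i * quad a - H * linForm (N := 4) a) = 0 := by
      rw [map_sub, map_mul, map_mul, hH]
      have h3 : theta k (quad a) = theta k (linForm (N := 4) a) * X 1 ^ 2 := by
        rw [theta_linForm]
        simp only [quad, map_add, map_sub, map_mul, theta_C, theta_X0,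
          theta_X1, theta_X2, theta_X3, theta_X4]
        ring
      rw [h3]
      ring
    change psi k m (theta k _) = 0
    rw [h2, map_zero]
  have h3 : X i * quad a = (X i * quad a - H * linForm (N := 4) a) + H * linForm (N := 4) a := by
    ring
  rw [h3]
  exact Ideal.add_mem _ (Ideal.mem_sup_left h1)
    (Ideal.mem_sup_right (Ideal.mul_mem_left _ _ (Ideal.mem_span_singleton_self _)))

theorem quad_mem_saturation (m : ℕ) (a : Fin 5 → k) :
    InSaturation (N := 4) (curveIdeal k m ⊔ Ideal.span {linForm (N := 4) a}) (quad a) := by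
  refine ⟨1, fun G hG => ?_⟩
  have h1 : G ∈ homogeneousSubmodule (Fin 5) k 1 := hG
  rw [homogeneousSubmodule_one_eq_span_X] at h1
  clear hG
  induction h1 using Submodule.span_induction with
  | mem x hx =>
    obtain ⟨i, rfl⟩ := hx
    exact X_mul_quad m a i
  | zero => rw [zero_mul]; exact Ideal.zero_mem _
  | add x y _ _ hx hy => rw [add_mul]; exact Ideal.add_mem _ hx hy
  | smul c x _ hx => rw [smul_mul_assoc, smul_eq_C_mul]; exact Ideal.mul_mem_left _ _ hx

theorem eval_linForm (a v : Fin 5 → k) : eval v (linForm (N := 4) a) = ∑ i, a i * v i := by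
  simp [linForm]

theorem exists_vec (a : Fin 5 → k) (ha : a ≠ 0) :
    ∃ v : Fin 5 → k, ∑ i, a i * v i = 0 ∧ eval v (quad a) ≠ 0 := by
  have hev : ∀ v, eval v (quad a) = a 0 * (v 1 * v 1) + a 1 * (v 1 * v 2 + v 0 * v 3) +
    a 2 * (v 2 * v 2 + v 1 * v 3 - v 0 * v 4) + a 3 * (v 2 * v 3 + v 1 * v 4) +
    a 4 * (v 3 * v 3) := by
    intro v
    simp [quad]
  by_cases h0 : a 0 = 0
  · by_cases h4 : a 4 = 0
    · by_cases h2 : a 2 = 0
      · by_cases h1 : a 1 = 0
        · have h3 : a 3 ≠ 0 := by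
            intro h3
            apply ha
            funext i
            fin_cases i <;> assumption
          refine ⟨![0, 1, 0, 0, 1], ?_, ?_⟩
          · simp [Fin.sum_univ_five, h0, h1, h2, h4]
          · rw [hev]
            simp [h0, h1, h2, h4, h3]
        · refine ⟨![1, -a 3, 0, a 1, 0], ?_, ?_⟩
          · simp [Fin.sum_univ_five, h0, h2, h4]
            ring
          · rw [hev]
            simp [h0, h2, h4, h1]
      · refine ⟨![1, 0, 0, 0, 1], ?_, ?_⟩
        · simp [Fin.sum_univ_five, h0, h4]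
        · rw [hev]
          simp [h0, h4, h2]
    · refine ⟨![0, 0, 0, a 4, -a 3], ?_, ?_⟩
      · simp [Fin.sum_univ_five, h0]
        ring
      · rw [hev]
        simp [h4]
  · refine ⟨![-a 1, a 0, 0, 0, 0], ?_, ?_⟩
    · simp [Fin.sum_univ_five]
      ring
    · rw [hev]
      simp [h0]

theorem quad_notMem (a : Fin 5 → k) (ha : a ≠ 0) :
    quad a ∉ Ideal.span {linForm (N := 4) a} := by
  intro h
  obtain ⟨v, hv, hq⟩ := exists_vec a ha
  rw [Ideal.mem_span_singleton] at h
  obtain ⟨G, hG⟩ := h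
  apply hq
  rw [hG, map_mul, eval_linForm, hv, zero_mul]

theorem linIdeal_one (a : Fin 1 → Fin 5 → k) :
    linIdeal (N := 4) a = Ideal.span {linForm (N := 4) (a 0)} := by
  have h : Set.range (fun j : Fin 1 => linForm (N := 4) (a j)) = {linForm (N := 4) (a 0)} := by
    apply Set.eq_singleton_iff_unique_mem.2
    refine ⟨⟨0, rfl⟩, ?_⟩
    rintro _ ⟨i, rfl⟩
    rw [Subsingleton.elim i 0]
  unfold linIdeal
  rw [h]

/-- The curve of degree `2 m` lies on no quadric, but every hyperplane section of it does. -/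
theorem curve_spec {m : ℕ} (hm : 5 ≤ m) :
    IsVariety (N := 4) (curveIdeal k m) 1 (2 * m) ∧
    (∀ F ∈ curveIdeal k m, F.IsHomogeneous 2 → F = 0) ∧
    ∀ a : Fin 1 → Fin 5 → k, a 0 ≠ 0 →
      ∃ F : MvPolynomial (Fin 5) k, F.IsHomogeneous 2 ∧
        InSaturation (N := 4) (curveIdeal k m ⊔ linIdeal (N := 4) a) F ∧
        F ∉ linIdeal (N := 4) a := by
  refine ⟨curve_isVariety (by omega), no_quadric hm, fun a ha => ?_⟩
  refine ⟨quad (a 0), quad_isHomogeneous _, ?_, ?_⟩
  · rw [linIdeal_one]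
    exact quad_mem_saturation m (a 0)
  · rw [linIdeal_one]
    exact quad_notMem (a 0) ha

end aux

/-- Question Q1 has a negative answer: for `e = 3` and `l = 2` no number `f` exists. Over every
infinite field and for every `m ≥ 5` there is an irreducible curve of degree `2 m` in `ℙ⁴` which
lies on no quadric, such that every hyperplane section of it lies on a quadric surface of the
hyperplane. -/
theorem result (k : Type*) [Field k] [Infinite k] :
    ¬ Question k ∧
    ∀ m : ℕ, 5 ≤ m → ∃ I : Ideal (MvPolynomial (Fin (1 + 3 + 1)) k),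
      IsVariety I 1 (2 * m) ∧ (∀ F ∈ I, F.IsHomogeneous 2 → F = 0) ∧
      ∀ a : Fin 1 → Fin (1 + 3 + 1) → k, LinearIndependent k a →
        ∃ F : MvPolynomial (Fin (1 + 3 + 1)) k, F.IsHomogeneous 2 ∧
          InSaturation (I ⊔ linIdeal a) F ∧ F ∉ linIdeal a := by
  have key : ∀ m : ℕ, 5 ≤ m → ∃ I : Ideal (MvPolynomial (Fin (1 + 3 + 1)) k),
      IsVariety I 1 (2 * m) ∧ (∀ F ∈ I, F.IsHomogeneous 2 → F = 0) ∧
      ∀ a : Fin 1 → Fin (1 + 3 + 1) → k, LinearIndependent k a →
        ∃ F : MvPolynomial (Fin (1 + 3 + 1)) k, F.IsHomogeneous 2 ∧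
          InSaturation (I ⊔ linIdeal a) F ∧ F ∉ linIdeal a := by
    intro m hm
    obtain ⟨h1, h2, h3⟩ := curve_spec (k := k) hm
    exact ⟨curveIdeal k m, h1, h2, fun a ha => h3 a (ha.ne_zero 0)⟩
  refine ⟨fun hQ => ?_, key⟩
  obtain ⟨f, hf⟩ := hQ 3 2 le_rfl (by norm_num)
  obtain ⟨I, h1, h2, h3⟩ := key (f + 5) (by omega)
  obtain ⟨h, h0, hh⟩ := hf 1 le_rfl I (2 * (f + 5)) h1 h2 (by omega)
  have h4 : h * X ((0 : Fin 1), (0 : Fin (1 + 3 + 1))) ≠ 0 := mul_ne_zero h0 (X_ne_zero _)
  obtain ⟨v, hv⟩ : ∃ v : Fin 1 × Fin (1 + 3 + 1) → k,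
      eval v (h * X ((0 : Fin 1), (0 : Fin (1 + 3 + 1)))) ≠ 0 := by
    by_contra hcon
    push Not at hcon
    exact h4 (MvPolynomial.funext fun v => by rw [hcon v, map_zero])
  rw [map_mul, eval_X] at hv
  have hv1 : eval v h ≠ 0 := left_ne_zero_of_mul hv
  have hv2 : v (0, 0) ≠ 0 := right_ne_zero_of_mul hv
  let a : Fin 1 → Fin (1 + 3 + 1) → k := fun i j => v (i, j)
  have ha0 : a 0 ≠ 0 := fun h' => hv2 (congrFun h' 0)
  have ha : LinearIndependent k a := by
    rw [Fintype.linearIndependent_iff]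
    intro g hg i
    rw [Fin.sum_univ_one] at hg
    rw [Subsingleton.elim i 0]
    exact (smul_eq_zero.1 hg).resolve_right ha0
  obtain ⟨F, hF2, hFs, hFn⟩ := h3 a ha
  exact hFn (hh a ha hv1 F hF2 hFs)

end Pool.Agent.Results.MP_63e4a9_ag.NoDegreeBound
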